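import Pool.Agent.N781.S.Iso
import Pool.Agent.N675.Cells
import Pool.Agent.TH423.SH.PAIP

/-! # Neighbouring primes in two residue classes outside an exceptional set (task S-PAIR of helper781) -/

set_option autoImplicit false

namespace Pool.Agent.N9.S.Pair

open Finset Filter Topology
open Pool.Agent.N675 (cell mem_cell_prime mem_cell_lower mem_cell_upper cell_disjoint)

/-- the primes of the class `a` modulo `M` in a cell -/
noncomputable def cl (M a : ℕ) (κ : ℝ) (j : ℕ) : Finset ℕ :=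
  (cell κ j).filter (fun p => p % M = a % M)

theorem mass (M : ℕ) (hM : 1 ≤ M) (κ : ℝ) (h0 : 0 < κ) (h1 : κ ≤ 1) :
    ∃ c0 C2 : ℝ, 0 < c0 ∧ 0 < C2 ∧ ∃ J0 : ℕ, ∀ a : ℕ, a.Coprime M → ∀ j : ℕ, J0 ≤ j →
      c0 / ((j : ℝ) + 1) ≤ ∑ p ∈ cl M a κ j, 1 / (p : ℝ) ∧
      ∑ p ∈ cl M a κ j, 1 / (p : ℝ) ≤ C2 / ((j : ℝ) + 1) := by
  obtain ⟨x₀, hx₀⟩ := Pool.Agent.TH423.SH.pai M hM (1 / 8) (κ / 2) (by norm_num) (by positivity)
  have hφ : (0 : ℝ) < (Nat.totient M : ℝ) := by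
    exact_mod_cast Nat.totient_pos.2 (by omega : 0 < M)
  have hL : 0 < Real.log (1 + κ) := Real.log_pos (by linarith)
  have hφL : 0 < (Nat.totient M : ℝ) * Real.log (1 + κ) := mul_pos hφ hL
  have hpow : Tendsto (fun j : ℕ => (1 + κ) ^ j) atTop atTop :=
    tendsto_pow_atTop_atTop_of_one_lt (by linarith)
  obtain ⟨J0, hJ0⟩ := eventually_atTop.mp
    ((hpow.eventually_ge_atTop (max x₀ (2 / κ + 2))).and (eventually_ge_atTop 1))
  refine ⟨7 * κ / (32 * ((Nat.totient M : ℝ) * Real.log (1 + κ))),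
    9 / (2 * ((Nat.totient M : ℝ) * Real.log (1 + κ))), by positivity, by positivity, J0,
    fun a ha j hj => ?_⟩
  obtain ⟨hyx, hj1⟩ := hJ0 j hj
  set y : ℝ := (1 + κ) ^ j with hy
  have hy0 : 0 < y := by positivity
  have hy1 : (1 + κ) ^ (j + 1) = (1 + κ) * y := by rw [hy, pow_succ]; ring
  have hyx0 : x₀ ≤ y := (le_max_left _ _).trans hyx
  have hyk : 2 / κ + 2 ≤ y := (le_max_right _ _).trans hyx
  have h2k : 0 < 2 / κ := by positivity
  have hy2 : 2 ≤ y := by linarith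
  have hky : 2 ≤ κ * y := by
    have h3 : 2 / κ ≤ y := by linarith
    rw [div_le_iff₀ h0] at h3
    linarith
  have u1 : ((⌊y⌋₊ : ℕ) : ℝ) ≤ y := Nat.floor_le hy0.le
  have u2 : y < (⌊y⌋₊ : ℕ) + 1 := Nat.lt_floor_add_one y
  have hz0 : 0 ≤ (1 + κ) * y := by positivity
  have v1 : ((⌊(1 + κ) * y⌋₊ : ℕ) : ℝ) ≤ (1 + κ) * y := Nat.floor_le hz0
  have v2 : (1 + κ) * y < (⌊(1 + κ) * y⌋₊ : ℕ) + 1 := Nat.lt_floor_add_one _
  have k := hx₀ y hyx0 ⌊y⌋₊ ⌊(1 + κ) * y⌋₊ a (by linarith) (by nlinarith) (by nlinarith) ha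
  have hcl : cl M a κ j = (Ioc ⌊y⌋₊ ⌊(1 + κ) * y⌋₊).filter
      (fun q => q.Prime ∧ q % M = a % M) := by
    unfold cl cell
    rw [hy1, ← hy, Finset.filter_filter]
  rw [← hcl] at k
  have hlog : Real.log y = j * Real.log (1 + κ) := by rw [hy, Real.log_pow]
  rw [hlog] at k
  have hjpos : (0 : ℝ) < j := by exact_mod_cast hj1
  have hj1' : (1 : ℝ) ≤ j := by exact_mod_cast hj1
  have hW : 0 < (Nat.totient M : ℝ) * (j * Real.log (1 + κ)) := by positivity
  obtain ⟨k1, k2⟩ := abs_le.1 k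
  have e1 : κ / 2 * y ≤ (⌊(1 + κ) * y⌋₊ : ℕ) - (⌊y⌋₊ : ℕ) := by nlinarith
  have e2 : ((⌊(1 + κ) * y⌋₊ : ℕ) : ℝ) - (⌊y⌋₊ : ℕ) ≤ 2 * y := by nlinarith
  have f1 := div_le_div_of_nonneg_right e1 hW.le
  have f2 := div_le_div_of_nonneg_right e2 hW.le
  have c1 : 7 / 8 * (κ / 2 * y / ((Nat.totient M : ℝ) * (j * Real.log (1 + κ)))) ≤
      ((cl M a κ j).card : ℝ) := by linarith
  have c2 : ((cl M a κ j).card : ℝ) ≤
      9 / 8 * (2 * y / ((Nat.totient M : ℝ) * (j * Real.log (1 + κ)))) := by linarith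
  have hj2 : 1 / ((j : ℝ) + 1) ≤ 1 / (j : ℝ) := one_div_le_one_div_of_le hjpos (by linarith)
  have hj3 : 1 / (j : ℝ) ≤ 2 * (1 / ((j : ℝ) + 1)) := by
    rw [mul_one_div, div_le_div_iff₀ hjpos (by positivity)]
    linarith
  have hcell : ∀ p ∈ cl M a κ j, p ∈ cell κ j := fun p hp => (Finset.mem_filter.1 hp).1
  constructor
  · have hterm : ∀ p ∈ cl M a κ j, 1 / (2 * y) ≤ 1 / (p : ℝ) := by
      intro p hp
      have h2 := mem_cell_upper h0 (hcell p hp)
      rw [hy1] at h2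
      have h3 : (0 : ℝ) < p := by exact_mod_cast (mem_cell_prime (hcell p hp)).pos
      exact one_div_le_one_div_of_le h3 (by nlinarith)
    have hsum : ((cl M a κ j).card : ℝ) * (1 / (2 * y)) ≤ ∑ p ∈ cl M a κ j, 1 / (p : ℝ) := by
      rw [← nsmul_eq_mul, ← Finset.sum_const]
      exact Finset.sum_le_sum hterm
    refine le_trans ?_ hsum
    refine le_trans ?_ (mul_le_mul_of_nonneg_right c1 (by positivity))
    have e : 7 / 8 * (κ / 2 * y / ((Nat.totient M : ℝ) * (j * Real.log (1 + κ)))) * (1 / (2 * y)) =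
        7 * κ / (32 * ((Nat.totient M : ℝ) * Real.log (1 + κ))) * (1 / (j : ℝ)) := by
      field_simp
      ring
    rw [e, div_eq_mul_one_div]
    exact mul_le_mul_of_nonneg_left hj2 (by positivity)
  · have hterm : ∀ p ∈ cl M a κ j, 1 / (p : ℝ) ≤ 1 / y := by
      intro p hp
      have h2 := mem_cell_lower h0 (hcell p hp)
      exact one_div_le_one_div_of_le hy0 h2.le
    have hsum : ∑ p ∈ cl M a κ j, 1 / (p : ℝ) ≤ ((cl M a κ j).card : ℝ) * (1 / y) := by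
      rw [← nsmul_eq_mul, ← Finset.sum_const]
      exact Finset.sum_le_sum hterm
    refine le_trans hsum ?_
    refine le_trans (mul_le_mul_of_nonneg_right c2 (by positivity)) ?_
    have e : 9 / 8 * (2 * y / ((Nat.totient M : ℝ) * (j * Real.log (1 + κ)))) * (1 / y) =
        9 / (4 * ((Nat.totient M : ℝ) * Real.log (1 + κ))) * (1 / (j : ℝ)) := by
      field_simp
      ring
    have e' : 9 / (2 * ((Nat.totient M : ℝ) * Real.log (1 + κ))) / ((j : ℝ) + 1) =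
        9 / (4 * ((Nat.totient M : ℝ) * Real.log (1 + κ))) * (2 * (1 / ((j : ℝ) + 1))) := by
      field_simp
      ring
    rw [e, e']
    exact mul_le_mul_of_nonneg_left hj3 (by positivity)

/-- the primes of the two classes in a cell -/
noncomputable def c2 (M m : ℕ) (κ : ℝ) (j : ℕ) : Finset ℕ :=
  (cell κ j).filter (fun p => p % M = 1 % M ∨ p % M = m % M)

theorem pair : Pool.Agent.N781.S.S_PAIR := by
  intro M m hM hm κ h0 h1
  obtain ⟨c0, C2, hc0, hC2, J, hJ⟩ := mass M hM κ h0 h1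
  refine ⟨c0 / (4 * C2 + 4), by positivity, fun C' P0 => ?_⟩
  have hpow : Tendsto (fun j : ℕ => (1 + κ) ^ j) atTop atTop :=
    tendsto_pow_atTop_atTop_of_one_lt (by linarith)
  obtain ⟨J', hJ'⟩ := eventually_atTop.mp (hpow.eventually_ge_atTop (P0 : ℝ))
  obtain ⟨J0, hJ0⟩ : ∃ J0, J0 = max J J' := ⟨_, rfl⟩
  have hharm : ∃ b, J0 ≤ b ∧ 2 * C' / c0 < ∑ j ∈ Finset.Ico J0 b, 1 / ((j : ℝ) + 1) := by
    have hdiv := Real.tendsto_sum_range_one_div_nat_succ_atTop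
    obtain ⟨b, hb1, hb2⟩ := ((hdiv.eventually_gt_atTop
      (2 * C' / c0 + ∑ j ∈ Finset.range J0, 1 / ((j : ℝ) + 1))).and
      (eventually_ge_atTop J0)).exists
    refine ⟨b, hb2, ?_⟩
    rw [← Finset.sum_range_add_sum_Ico _ hb2] at hb1
    linarith
  obtain ⟨J1, hJ01, hJ1⟩ := hharm
  have hcs : ∀ j : ℕ, c2 M m κ j ⊆ cell κ j := fun j => Finset.filter_subset _ _
  have hlo : ∀ j ∈ Finset.Ico J0 J1, (P0 : ℝ) ≤ (1 + κ) ^ j := by
    intro j hj
    rw [Finset.mem_Ico] at hj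
    exact hJ' j (by omega)
  have hT : ∀ (z e : ℕ), (z : ℝ) ≤ (1 + κ) ^ e → e ≤ J1 → z ≤ ⌈(1 + κ) ^ J1⌉₊ := by
    intro z e hz he
    have h2 : (1 + κ) ^ e ≤ (1 + κ) ^ J1 := pow_le_pow_right₀ (by linarith) he
    have h3 : (z : ℝ) ≤ (⌈(1 + κ) ^ J1⌉₊ : ℕ) := hz.trans (h2.trans (Nat.le_ceil _))
    exact_mod_cast h3
  refine ⟨(Finset.Ico J0 J1).biUnion (c2 M m κ), ⌈(1 + κ) ^ J1⌉₊, ?_, ?_⟩
  · intro p hp
    obtain ⟨j, hj, hpj⟩ := Finset.mem_biUnion.mp hp
    have hpc := hcs j hpj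
    have a1 := hlo j hj
    have a2 := mem_cell_lower h0 hpc
    rw [Finset.mem_Ico] at hj
    refine ⟨mem_cell_prime hpc, ?_, hT p (j + 1) (mem_cell_upper h0 hpc) (by omega)⟩
    exact_mod_cast (a1.trans a2.le)
  · intro E _ hE
    by_contra hcon
    push Not at hcon
    have hdis : ∀ i j : ℕ, i ≠ j → Disjoint (c2 M m κ i) (c2 M m κ j) := by
      intro i j hij
      exact Finset.disjoint_of_subset_left (hcs i)
        (Finset.disjoint_of_subset_right (hcs j) (cell_disjoint h0 hij))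
    have key : ∀ j ∈ Finset.Ico J0 J1,
        c0 / ((j : ℝ) + 1) ≤ ∑ p ∈ (c2 M m κ j).filter (· ∈ E), 1 / (p : ℝ) := by
      intro j hj
      have hj' := Finset.mem_Ico.1 hj
      have hJj : J ≤ j := by omega
      -- one of the two classes is contained in the exceptional set
      have hor : (∀ p ∈ cl M 1 κ j, p ∈ E) ∨ (∀ p ∈ cl M m κ j, p ∈ E) := by
        by_contra hno
        push Not at hno
        obtain ⟨⟨p, hp, hpE⟩, p', hp', hpE'⟩ := hno
        unfold cl at hp hp'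
        rw [Finset.mem_filter] at hp hp'
        have b1 := mem_cell_lower h0 hp.1
        have b2 := mem_cell_upper h0 hp.1
        have b3 := mem_cell_lower h0 hp'.1
        have b4 := mem_cell_upper h0 hp'.1
        have hpos : (0 : ℝ) ≤ (1 + κ) ^ j := by positivity
        have hfl : ((⌊(1 + κ) ^ j⌋₊ : ℕ) : ℝ) ≤ (1 + κ) ^ j := Nat.floor_le hpos
        have hfl2 : (1 + κ) ^ j < (⌊(1 + κ) ^ j⌋₊ : ℕ) + 1 := Nat.lt_floor_add_one _
        have hup : (1 + κ) ^ (j + 1) ≤ (1 + κ) * ((⌊(1 + κ) ^ j⌋₊ : ℕ) + 1) := by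
          rw [pow_succ, mul_comm]
          exact mul_le_mul_of_nonneg_left hfl2.le (by linarith)
        refine hcon ⌊(1 + κ) ^ j⌋₊ p p' ?_ ?_ ?_ ?_ ?_ ?_ (b2.trans hup) (b4.trans hup) hpE hpE'
          hp.2 hp'.2
        · exact Nat.le_floor (hlo j hj)
        · exact hT _ j hfl (by omega)
        · exact Finset.mem_biUnion.2 ⟨j, hj, Finset.mem_filter.2 ⟨hp.1, Or.inl hp.2⟩⟩
        · exact Finset.mem_biUnion.2 ⟨j, hj, Finset.mem_filter.2 ⟨hp'.1, Or.inr hp'.2⟩⟩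
        · exact_mod_cast hfl.trans b1.le
        · exact_mod_cast hfl.trans b3.le
      rcases hor with h | h
      · refine ((hJ 1 (Nat.coprime_one_left M) j hJj).1).trans
          (Finset.sum_le_sum_of_subset_of_nonneg ?_ fun _ _ _ => by positivity)
        intro p hp
        have hp2 := Finset.mem_filter.1 hp
        exact Finset.mem_filter.2 ⟨Finset.mem_filter.2 ⟨hp2.1, Or.inl hp2.2⟩, h p hp⟩
      · refine ((hJ m hm j hJj).1).trans
          (Finset.sum_le_sum_of_subset_of_nonneg ?_ fun _ _ _ => by positivity)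
        intro p hp
        have hp2 := Finset.mem_filter.1 hp
        exact Finset.mem_filter.2 ⟨Finset.mem_filter.2 ⟨hp2.1, Or.inr hp2.2⟩, h p hp⟩
    have g1 : c0 * ∑ j ∈ Finset.Ico J0 J1, 1 / ((j : ℝ) + 1) ≤
        ∑ p ∈ ((Finset.Ico J0 J1).biUnion (c2 M m κ)).filter (· ∈ E), 1 / (p : ℝ) := by
      rw [Finset.filter_biUnion, Finset.sum_biUnion, Finset.mul_sum]
      · refine Finset.sum_le_sum fun j hj => ?_
        rw [mul_one_div]
        exact key j hj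
      · intro i _ j _ hij
        exact Finset.disjoint_filter_filter (hdis i j hij)
    have g2 : ∑ p ∈ (Finset.Ico J0 J1).biUnion (c2 M m κ), 1 / (p : ℝ) ≤
        2 * C2 * ∑ j ∈ Finset.Ico J0 J1, 1 / ((j : ℝ) + 1) := by
      rw [Finset.sum_biUnion (fun i _ j _ hij => hdis i j hij), Finset.mul_sum]
      refine Finset.sum_le_sum fun j hj => ?_
      have hj' := Finset.mem_Ico.1 hj
      have hJj : J ≤ j := by omega
      have hsub : c2 M m κ j ⊆ cl M 1 κ j ∪ cl M m κ j := by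
        intro p hp
        have hp2 := Finset.mem_filter.1 hp
        rw [Finset.mem_union]
        rcases hp2.2 with h | h
        · exact Or.inl (Finset.mem_filter.2 ⟨hp2.1, h⟩)
        · exact Or.inr (Finset.mem_filter.2 ⟨hp2.1, h⟩)
      have s1 : ∑ p ∈ c2 M m κ j, 1 / (p : ℝ) ≤ ∑ p ∈ cl M 1 κ j ∪ cl M m κ j, 1 / (p : ℝ) :=
        Finset.sum_le_sum_of_subset_of_nonneg hsub fun _ _ _ => by positivity
      have s2 : ∑ p ∈ cl M 1 κ j ∪ cl M m κ j, 1 / (p : ℝ) ≤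
          ∑ p ∈ cl M 1 κ j, 1 / (p : ℝ) + ∑ p ∈ cl M m κ j, 1 / (p : ℝ) := by
        rw [← Finset.sum_union_inter]
        have : 0 ≤ ∑ p ∈ cl M 1 κ j ∩ cl M m κ j, 1 / (p : ℝ) :=
          Finset.sum_nonneg fun _ _ => by positivity
        linarith
      have s3 := (hJ 1 (Nat.coprime_one_left M) j hJj).2
      have s4 := (hJ m hm j hJj).2
      have s5 : 2 * C2 * (1 / ((j : ℝ) + 1)) = C2 / ((j : ℝ) + 1) + C2 / ((j : ℝ) + 1) := by ring
      rw [s5]
      linarith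
    obtain ⟨h, hh⟩ : ∃ h, h = ∑ j ∈ Finset.Ico J0 J1, 1 / ((j : ℝ) + 1) := ⟨_, rfl⟩
    rw [← hh] at g1 g2 hJ1
    have hh0 : 0 ≤ h := by
      rw [hh]
      exact Finset.sum_nonneg fun _ _ => by positivity
    have hρ : 0 ≤ c0 / (4 * C2 + 4) := by positivity
    have g3 := mul_le_mul_of_nonneg_left g2 hρ
    have g4 : c0 / (4 * C2 + 4) * (2 * C2 * h) ≤ c0 * h / 2 := by
      rw [div_mul_eq_mul_div, div_le_div_iff₀ (by positivity) (by norm_num)]
      nlinarith [mul_nonneg hc0.le hh0, mul_nonneg (mul_nonneg hc0.le hh0) hC2.le]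
    rw [div_lt_iff₀ hc0] at hJ1
    linarith [g1.trans hE]

end Pool.Agent.N9.S.Pair
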